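import Mathlib
import Pool.Agent.H9.MPf3b8e9Final

set_option autoImplicit false

namespace Pool.Agent.Results.MP_f3b8e9_an.Disproof

open Pool.Agent.H9.MPf3b8e9F

/-- There are a convex domain `Ω` containing `0`, an operator `ℓ` of the given form and continuous
functionals with `Δ` not identically zero such that the closed span of the root vectors is
different from the common domain of all powers of the operator. -/
theorem result :
    ∃ (Ω : Set ℂ) (n : ℕ) (a : Fin (n - 1) → ℂ → ℂ) (φ : Fin n → (ℂ → ℂ) → ℂ),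
      IsOpen Ω ∧ Convex ℝ Ω ∧ (0 : ℂ) ∈ Ω ∧ 1 ≤ n ∧ (∀ k, DifferentiableOn ℂ (a k) Ω) ∧
      (∀ j, IsFunctional Ω (φ j)) ∧ DeltaNeZero Ω a φ ∧
      ∃ F : ℂ → ℂ, InDinf Ω a φ F ∧ ¬ InCl Ω a φ F :=
  main_result

end Pool.Agent.Results.MP_f3b8e9_an.Disproof
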